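import Pool.Agent.Work.MP_aef1a0_co.All

/-!
# The exponent of the maximum running time need not exist

For a graph `H`, `maxRun H n` is the maximum running time of the `H`-process over all graphs on
`n` vertices (`step`, `proc`, `runTime`, `maxRun` are defined in
`Pool/Agent/Work/MP_aef1a0_co/Defs.lean`). We exhibit a graph `H` with at least one edge for which
`maxRun H n` is at least a constant times `n ^ 2` for infinitely many `n`, and at most a constant
times `n ^ (3 / 2)` for infinitely many `n`. So the limit of `log (maxRun H n) / log n` does not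
exist.
-/

set_option autoImplicit false

namespace Pool.Agent.Results.MP_aef1a0_co.NoExponent

open MPaef1a0 Filter Topology

theorem result :
    ∃ (v : ℕ) (H : SimpleGraph (Fin v)), H ≠ ⊥ ∧
      (∃ c : ℝ, 0 < c ∧ ∃ᶠ n : ℕ in atTop, c * (n : ℝ) ^ 2 ≤ (maxRun H n : ℝ)) ∧
      (∃ C : ℝ, ∃ᶠ n : ℕ in atTop, (maxRun H n : ℝ) ≤ C * (n : ℝ) ^ (3 / 2 : ℝ)) ∧
      ¬ ∃ L : ℝ, Tendsto (fun n : ℕ => Real.log (maxRun H n) / Real.log n) atTop (𝓝 L) :=
  finalAll

end Pool.Agent.Results.MP_aef1a0_co.NoExponent
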